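import Mathlib

set_option autoImplicit false

/-! Counting the `n` with `n + φ(n)` in an interval of length `x / K`. -/

namespace Pool.Agent.V11294.PT

open Finset Filter Topology

noncomputable def tail (y n : ℕ) : ℝ := ∑ p ∈ n.primeFactors.filter (fun p => y < p), (1 / (p : ℝ))

lemma tail_nonneg (y n : ℕ) : 0 ≤ tail y n := sum_nonneg fun p _ => by positivity

lemma markov (y N : ℕ) (η : ℝ) :
    (((range N).filter (fun n => η < tail y n)).card : ℝ) * η ≤ N * (2 / (y + 1)) := by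
  classical
  have h1 : (((range N).filter (fun n => η < tail y n)).card : ℝ) * η ≤
      ∑ n ∈ range N, tail y n := by
    calc (((range N).filter (fun n => η < tail y n)).card : ℝ) * η
        = ∑ n ∈ (range N).filter (fun n => η < tail y n), η := by
          rw [sum_const, nsmul_eq_mul]
      _ ≤ ∑ n ∈ (range N).filter (fun n => η < tail y n), tail y n :=
          sum_le_sum fun n hn => (mem_filter.1 hn).2.le
      _ ≤ ∑ n ∈ range N, tail y n :=
          sum_le_sum_of_subset_of_nonneg (filter_subset _ _) fun n _ _ => tail_nonneg y n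
  refine h1.trans ?_
  have h2 : ∀ n ∈ range N, tail y n ≤ ∑ p ∈ Ioo y N, if (n ≠ 0 ∧ p ∣ n) then 1 / (p : ℝ) else 0 := by
    intro n hn
    rw [← sum_filter]
    apply sum_le_sum_of_subset_of_nonneg
    · intro p hp
      rw [mem_filter, Nat.mem_primeFactors] at hp
      rw [mem_filter, mem_Ioo]
      have h3 : p ≤ n := Nat.le_of_dvd (Nat.pos_of_ne_zero hp.1.2.2) hp.1.2.1
      have h4 := mem_range.1 hn
      exact ⟨⟨hp.2, by omega⟩, hp.1.2.2, hp.1.2.1⟩
    · intro p _ _; positivity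
  refine (sum_le_sum h2).trans ?_
  rw [sum_comm]
  have h3 : ∀ p ∈ Ioo y N, ∑ n ∈ range N, (if (n ≠ 0 ∧ p ∣ n) then 1 / (p : ℝ) else 0) ≤
      N * ((p : ℝ) ^ 2)⁻¹ := by
    intro p hp
    rw [← sum_filter, sum_const, nsmul_eq_mul]
    have hp0 : 0 < p := by have := (mem_Ioo.1 hp).1; omega
    have h4 : (((range N).filter (fun n => n ≠ 0 ∧ p ∣ n)).card : ℝ) ≤ (N : ℝ) / p := by
      have h5 : ((range N).filter (fun n => n ≠ 0 ∧ p ∣ n)).card ≤ N / p := by
        rw [← Nat.Ioc_filter_dvd_card_eq_div]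
        apply card_le_card
        intro n hn
        rw [mem_filter, mem_range] at hn
        rw [mem_filter, mem_Ioc]
        exact ⟨⟨Nat.pos_of_ne_zero hn.2.1, hn.1.le⟩, hn.2.2⟩
      calc (((range N).filter (fun n => n ≠ 0 ∧ p ∣ n)).card : ℝ) ≤ ((N / p : ℕ) : ℝ) := by
            exact_mod_cast h5
        _ ≤ (N : ℝ) / p := Nat.cast_div_le
    have hpR : (0 : ℝ) < p := by exact_mod_cast hp0
    calc (((range N).filter (fun n => n ≠ 0 ∧ p ∣ n)).card : ℝ) * (1 / p)
        ≤ (N : ℝ) / p * (1 / p) := by gcongr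
      _ = _ := by field_simp
  refine (sum_le_sum h3).trans ?_
  rw [← mul_sum]
  apply mul_le_mul_of_nonneg_left _ (by positivity)
  exact_mod_cast sum_Ioo_inv_sq_le (α := ℝ) y N

/-- small part of `φ(n)/n` -/
noncomputable def v (y r : ℕ) : ℝ :=
  ∏ p ∈ (range (y + 1)).filter (fun p => p.Prime ∧ p ∣ r), (1 - 1 / (p : ℝ))

lemma fac_pos {p : ℕ} (hp : p.Prime) : 0 < 1 - 1 / (p : ℝ) := by
  have : (2 : ℝ) ≤ p := by exact_mod_cast hp.two_le
  rw [sub_pos, div_lt_one (by linarith)]; linarith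

lemma fac_le {p : ℕ} (hp : p.Prime) : 1 - 1 / (p : ℝ) ≤ 1 := by
  have : (0 : ℝ) ≤ 1 / p := by positivity
  linarith

lemma v_pos (y r : ℕ) : 0 < v y r := prod_pos fun p hp => fac_pos (mem_filter.1 hp).2.1

lemma v_le (y r : ℕ) : v y r ≤ 1 :=
  prod_le_one (fun p hp => (fac_pos (mem_filter.1 hp).2.1).le)
    (fun p hp => fac_le (mem_filter.1 hp).2.1)

lemma v_mod (y n : ℕ) : v y (n % y.factorial) = v y n := by
  unfold v
  congr 1
  apply filter_congr
  intro p hp
  rw [mem_range] at hp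
  constructor
  · rintro ⟨h1, h2⟩
    refine ⟨h1, ?_⟩
    exact (Nat.dvd_mod_iff (Nat.dvd_factorial h1.pos (by omega))).1 h2
  · rintro ⟨h1, h2⟩
    refine ⟨h1, ?_⟩
    exact (Nat.dvd_mod_iff (Nat.dvd_factorial h1.pos (by omega))).2 h2

lemma prod_ge (s : Finset ℕ) (f : ℕ → ℝ) (h0 : ∀ i ∈ s, 0 ≤ f i) (h1 : ∀ i ∈ s, f i ≤ 1) :
    1 - ∑ i ∈ s, f i ≤ ∏ i ∈ s, (1 - f i) := by
  classical
  induction s using Finset.induction_on with
  | empty => simp
  | insert a s ha ih =>
    rw [sum_insert ha, prod_insert ha]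
    have i1 := ih (fun i hi => h0 i (mem_insert_of_mem hi)) (fun i hi => h1 i (mem_insert_of_mem hi))
    have a0 := h0 a (mem_insert_self a s)
    have a1 := h1 a (mem_insert_self a s)
    have s0 : 0 ≤ ∑ i ∈ s, f i := sum_nonneg fun i hi => h0 i (mem_insert_of_mem hi)
    have := mul_le_mul_of_nonneg_left i1 (show 0 ≤ 1 - f a by linarith)
    nlinarith

lemma phi_bounds (y n : ℕ) : (n : ℝ) * v y n * (1 - tail y n) ≤ (Nat.totient n : ℝ) ∧
    (Nat.totient n : ℝ) ≤ n * v y n := by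
  rcases Nat.eq_zero_or_pos n with rfl | hn
  · simp
  have h1 : (Nat.totient n : ℝ) = n * ∏ p ∈ n.primeFactors, (1 - (p : ℝ)⁻¹) := by
    have := Nat.totient_eq_mul_prod_factors n
    have h2 : ((Nat.totient n : ℚ) : ℝ) = ((n * ∏ p ∈ n.primeFactors, (1 - (p : ℚ)⁻¹) : ℚ) : ℝ) := by
      rw [this]
    push_cast at h2
    exact h2
  have h2 : n.primeFactors.filter (fun p => ¬ y < p) =
      (range (y + 1)).filter (fun p => p.Prime ∧ p ∣ n) := by
    ext p
    rw [mem_filter, mem_filter, Nat.mem_primeFactors, mem_range]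
    constructor
    · rintro ⟨⟨h1, h2, _⟩, h3⟩; exact ⟨by omega, h1, h2⟩
    · rintro ⟨h1, h2, h3⟩; exact ⟨⟨h2, h3, by omega⟩, by omega⟩
  have h3 : (Nat.totient n : ℝ) = n * v y n *
      ∏ p ∈ n.primeFactors.filter (fun p => y < p), (1 - 1 / (p : ℝ)) := by
    rw [h1, ← prod_filter_mul_prod_filter_not n.primeFactors (fun p => y < p), h2]
    unfold v
    simp only [one_div]
    ring
  have hv := v_pos y n
  have hn0 : (0 : ℝ) < n := by exact_mod_cast hn
  constructor
  · rw [h3]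
    apply mul_le_mul_of_nonneg_left _ (by positivity)
    apply prod_ge
    · intro i _; positivity
    · intro p hp
      have h4 : (2 : ℝ) ≤ p := by
        exact_mod_cast (Nat.prime_of_mem_primeFactors (mem_filter.1 hp).1).two_le
      rw [div_le_one (by linarith)]; linarith
  · rw [h3]
    apply mul_le_of_le_one_right (by positivity)
    apply prod_le_one
    · intro p hp; exact (fac_pos (Nat.prime_of_mem_primeFactors (mem_filter.1 hp).1)).le
    · intro p hp; exact fac_le (Nat.prime_of_mem_primeFactors (mem_filter.1 hp).1)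

lemma class_count {P r N : ℕ} (hP : 0 < P) {a b : ℝ} (ha : 0 ≤ a) (hab : a ≤ b) :
    (((range N).filter (fun n => n % P = r ∧ a < n ∧ (n : ℝ) < b)).card : ℝ) ≤ (b - a) / P + 2 := by
  have h1 : (range N).filter (fun n => n % P = r ∧ a < n ∧ (n : ℝ) < b) ⊆
      (Ioc ⌊a⌋₊ ⌊b⌋₊).filter (fun n => n ≡ r [MOD P]) := by
    intro n hn
    rw [mem_filter] at hn
    rw [mem_filter, mem_Ioc]
    refine ⟨⟨?_, ?_⟩, ?_⟩
    · exact (Nat.floor_lt ha).2 hn.2.2.1
    · exact Nat.le_floor hn.2.2.2.le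
    · have : n % P = r % P := by rw [← hn.2.1, Nat.mod_mod]
      exact this
  have h2 : (((range N).filter (fun n => n % P = r ∧ a < n ∧ (n : ℝ) < b)).card : ℝ) ≤
      (((Ioc ⌊a⌋₊ ⌊b⌋₊).filter (fun n => n ≡ r [MOD P])).card : ℝ) := by
    exact_mod_cast card_le_card h1
  refine h2.trans ?_
  have h3 := Nat.Ioc_filter_modEq_card ⌊a⌋₊ ⌊b⌋₊ hP r
  have h4 : (((Ioc ⌊a⌋₊ ⌊b⌋₊).filter (fun n => n ≡ r [MOD P])).card : ℝ) =
      ((max (⌊((⌊b⌋₊ : ℚ) - r) / (P : ℚ)⌋ - ⌊((⌊a⌋₊ : ℚ) - r) / (P : ℚ)⌋) 0 : ℤ) : ℝ) := by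
    exact_mod_cast h3
  rw [h4]
  have hPR : (0 : ℝ) < P := by exact_mod_cast hP
  have hP1 : (1 : ℝ) ≤ P := by exact_mod_cast hP
  push_cast
  apply max_le
  · have e1 : ((⌊((⌊b⌋₊ : ℚ) - r) / (P : ℚ)⌋ : ℤ) : ℝ) ≤ ((⌊b⌋₊ : ℝ) - r) / P := by
      have := Int.floor_le (((⌊b⌋₊ : ℚ) - r) / (P : ℚ))
      have h5 : (((⌊((⌊b⌋₊ : ℚ) - r) / (P : ℚ)⌋ : ℤ) : ℚ) : ℝ) ≤
        ((((⌊b⌋₊ : ℚ) - r) / (P : ℚ) : ℚ) : ℝ) := by exact_mod_cast this
      push_cast at h5
      exact h5
    have e2 : ((⌊a⌋₊ : ℝ) - r) / P - 1 < ((⌊((⌊a⌋₊ : ℚ) - r) / (P : ℚ)⌋ : ℤ) : ℝ) := by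
      have := Int.sub_one_lt_floor (((⌊a⌋₊ : ℚ) - r) / (P : ℚ))
      have h5 : (((((⌊a⌋₊ : ℚ) - r) / (P : ℚ) - 1 : ℚ)) : ℝ) <
        (((⌊((⌊a⌋₊ : ℚ) - r) / (P : ℚ)⌋ : ℤ) : ℚ) : ℝ) := by exact_mod_cast this
      push_cast at h5
      exact h5
    have e3 : (⌊b⌋₊ : ℝ) ≤ b := Nat.floor_le (by linarith)
    have e4 : a < ⌊a⌋₊ + 1 := Nat.lt_floor_add_one a
    have e5 : ((⌊b⌋₊ : ℝ) - r) / P - ((⌊a⌋₊ : ℝ) - r) / P ≤ (b - a) / P + 1 := by
      rw [← sub_div, div_add' _ _ _ (ne_of_gt hPR)]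
      apply div_le_div_of_nonneg_right _ hPR.le
      linarith
    linarith
  · have : 0 ≤ (b - a) / P := div_nonneg (by linarith) hPR.le
    linarith

/-- the fixed-`K` count -/
lemma count_le {K x : ℕ} (hK : 1 ≤ K) (hx : 2 * K * (4 * K ^ 2).factorial ≤ x) :
    ((Set.ncard {n : ℕ | (x : ℝ) < (n : ℝ) + (Nat.totient n : ℝ) ∧
              (n : ℝ) + (Nat.totient n : ℝ) < (x : ℝ) + x / K} : ℕ) : ℝ) ≤ 5 * (x / K) := by
  classical
  set y := 4 * K ^ 2 with hy
  set P := y.factorial with hP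
  have hP0 : 0 < P := Nat.factorial_pos _
  have hKR : (1 : ℝ) ≤ K := by exact_mod_cast hK
  have hK0 : (0 : ℝ) < K := by linarith
  have hx0 : (0 : ℝ) ≤ x := by positivity
  have hxK : (x : ℝ) / K ≤ x := div_le_self hx0 hKR
  set bad := (range (2 * x)).filter (fun n => 1 / (K : ℝ) < tail y n) with hbad
  set good : ℕ → Finset ℕ := fun r => (range (2 * x)).filter
    (fun n => n % P = r ∧ (x : ℝ) / (1 + v y r) < n ∧ (n : ℝ) < (x + 3 * (x / K)) / (1 + v y r))
    with hgood
  have hsub : {n : ℕ | (x : ℝ) < (n : ℝ) + (Nat.totient n : ℝ) ∧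
              (n : ℝ) + (Nat.totient n : ℝ) < (x : ℝ) + x / K} ⊆
      ((bad ∪ (range P).biUnion good : Finset ℕ) : Set ℕ) := by
    rintro n ⟨h1, h2⟩
    rw [mem_coe, mem_union, mem_biUnion]
    have h0 : (0 : ℝ) ≤ Nat.totient n := by positivity
    have hn : n < 2 * x := by
      have : (n : ℝ) < 2 * x := by linarith
      exact_mod_cast this
    have hnR : (n : ℝ) < 2 * x := by linarith
    by_cases ht : 1 / (K : ℝ) < tail y n
    · left; exact mem_filter.2 ⟨mem_range.2 hn, ht⟩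
    · right
      refine ⟨n % P, mem_range.2 (Nat.mod_lt _ hP0), ?_⟩
      rw [hgood]
      simp only
      rw [mem_filter, mem_range]
      rw [hP, v_mod]
      have hv := v_pos y n
      have hv1 := v_le y n
      obtain ⟨b1, b2⟩ := phi_bounds y n
      refine ⟨hn, rfl, ?_, ?_⟩
      · rw [div_lt_iff₀ (by linarith)]
        nlinarith
      · rw [lt_div_iff₀ (by linarith)]
        push Not at ht
        have hn0 : (0 : ℝ) ≤ n := by positivity
        have h3 : (n : ℝ) * v y n * (1 - 1 / K) ≤ Nat.totient n := by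
          refine le_trans ?_ b1
          apply mul_le_mul_of_nonneg_left _ (by positivity)
          linarith
        have h4 : (n : ℝ) * v y n ≤ 2 * x := by nlinarith
        have h5 : (n : ℝ) * v y n * (1 / K) ≤ 2 * x * (1 / K) := by
          apply mul_le_mul_of_nonneg_right h4 (by positivity)
        have h6 : (2 : ℝ) * x * (1 / K) = 2 * (x / K) := by ring
        nlinarith
  have hcard : ((Set.ncard {n : ℕ | (x : ℝ) < (n : ℝ) + (Nat.totient n : ℝ) ∧
              (n : ℝ) + (Nat.totient n : ℝ) < (x : ℝ) + x / K} : ℕ) : ℝ) ≤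
      (bad.card : ℝ) + ∑ r ∈ range P, ((good r).card : ℝ) := by
    have h1 := Set.ncard_le_ncard hsub (finite_toSet _)
    rw [Set.ncard_coe_finset] at h1
    have h2 : (bad ∪ (range P).biUnion good).card ≤ bad.card + ∑ r ∈ range P, (good r).card :=
      (card_union_le _ _).trans (Nat.add_le_add_left card_biUnion_le _)
    exact_mod_cast h1.trans h2
  refine hcard.trans ?_
  have hb : (bad.card : ℝ) ≤ x / K := by
    have h1 := markov y (2 * x) (1 / (K : ℝ))
    rw [← hbad] at h1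
    have h2 : ((2 * x : ℕ) : ℝ) * (2 / ((y : ℝ) + 1)) ≤ x / K * (1 / K) := by
      rw [hy]
      push_cast
      have : (2 : ℝ) / (4 * K ^ 2 + 1) ≤ 2 / (4 * K ^ 2) := by
        apply div_le_div_of_nonneg_left (by norm_num) (by positivity)
        linarith
      calc (2 : ℝ) * x * (2 / (4 * (K : ℝ) ^ 2 + 1)) ≤ 2 * x * (2 / (4 * (K : ℝ) ^ 2)) := by
            gcongr
        _ = (x : ℝ) / K * (1 / K) := by field_simp; ring
    exact le_of_mul_le_mul_right (h1.trans h2) (by positivity)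
  have hg : ∑ r ∈ range P, ((good r).card : ℝ) ≤ 3 * (x / K) + 2 * P := by
    have h1 : ∀ r ∈ range P, ((good r).card : ℝ) ≤ 3 * (x / K) / P + 2 := by
      intro r _
      have hv := v_pos y r
      have h2 := class_count (P := P) (r := r) (N := 2 * x) hP0
        (a := (x : ℝ) / (1 + v y r)) (b := (x + 3 * (x / K)) / (1 + v y r))
        (by positivity) (by
          apply div_le_div_of_nonneg_right _ (by positivity)
          have : 0 ≤ (x : ℝ) / K := by positivity
          linarith)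
      refine h2.trans ?_
      have h3 : ((x : ℝ) + 3 * (x / K)) / (1 + v y r) - x / (1 + v y r) ≤ 3 * (x / K) := by
        rw [← sub_div, add_sub_cancel_left]
        apply div_le_self (by positivity)
        linarith
      have hPR : (0 : ℝ) < P := by exact_mod_cast hP0
      have := div_le_div_of_nonneg_right h3 hPR.le
      linarith
    refine (sum_le_sum h1).trans (le_of_eq ?_)
    rw [sum_const, card_range, nsmul_eq_mul]
    have hPR : (P : ℝ) ≠ 0 := by
      have : (0 : ℝ) < P := by exact_mod_cast hP0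
      exact ne_of_gt this
    field_simp
  have hP' : 2 * (P : ℝ) ≤ x / K := by
    rw [le_div_iff₀ hK0]
    have : 2 * K * P ≤ x := hx
    have h' : ((2 * K * P : ℕ) : ℝ) ≤ x := by exact_mod_cast this
    push_cast at h'
    linarith
  linarith

/-- the slowly growing parameter -/
noncomputable def kk (x : ℕ) : ℕ :=
  Nat.findGreatest (fun K => 2 * K * (4 * K ^ 2).factorial ≤ x) x

lemma kk_spec (x : ℕ) : 2 * kk x * (4 * kk x ^ 2).factorial ≤ x := by
  have := Nat.findGreatest_spec (P := fun K => 2 * K * (4 * K ^ 2).factorial ≤ x) (m := 0)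
    (n := x) (Nat.zero_le _) (by simp)
  exact this

lemma kk_ge {K x : ℕ} (h : 2 * K * (4 * K ^ 2).factorial ≤ x) : K ≤ kk x := by
  apply Nat.le_findGreatest
  · have : 1 ≤ (4 * K ^ 2).factorial := Nat.factorial_pos _
    nlinarith
  · exact h

lemma kk_tendsto : Tendsto kk atTop atTop := by
  rw [tendsto_atTop]
  intro K
  filter_upwards [eventually_ge_atTop (2 * K * (4 * K ^ 2).factorial)] with x hx
  exact kk_ge hx

lemma kk_sq (x : ℕ) : kk x ^ 2 ≤ x := by
  have h := kk_spec x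
  have h1 : 4 * kk x ^ 2 ≤ (4 * kk x ^ 2).factorial := Nat.self_le_factorial _
  rcases Nat.eq_zero_or_pos (kk x) with h0 | h0
  · rw [h0]; simp
  · calc kk x ^ 2 = 1 * kk x ^ 2 := (one_mul _).symm
      _ ≤ (2 * kk x) * (4 * kk x ^ 2) := Nat.mul_le_mul (by omega) (by omega)
      _ ≤ 2 * kk x * (4 * kk x ^ 2).factorial := Nat.mul_le_mul_left _ h1
      _ ≤ x := h

noncomputable def FF (x : ℕ) : ℝ := x / kk x

lemma FF_tendsto : Tendsto FF atTop atTop := by
  have h1 : Tendsto (fun x : ℕ => (kk x : ℝ)) atTop atTop :=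
    tendsto_natCast_atTop_atTop.comp kk_tendsto
  apply tendsto_atTop_mono' _ _ h1
  filter_upwards [kk_tendsto.eventually_ge_atTop 1] with x hx
  unfold FF
  have : (0 : ℝ) < kk x := by exact_mod_cast hx
  rw [le_div_iff₀ this]
  have h2 := kk_sq x
  have h3 : ((kk x ^ 2 : ℕ) : ℝ) ≤ x := by exact_mod_cast h2
  push_cast at h3
  nlinarith

/-- the density-one set -/
def AA : Set ℕ := {n : ℕ | (n : ℝ) ≤ Nat.totient n * Real.sqrt (kk n)}

lemma FF_div : Tendsto (fun n : ℕ => FF n / (Nat.totient n : ℝ)) (atTop ⊓ 𝓟 AA) (𝓝 0) := by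
  have h1 : Tendsto (fun n : ℕ => (Real.sqrt (kk n))⁻¹) atTop (𝓝 0) := by
    apply Tendsto.inv_tendsto_atTop
    exact Real.tendsto_sqrt_atTop.comp (tendsto_natCast_atTop_atTop.comp kk_tendsto)
  have h2 : Tendsto (fun n : ℕ => (Real.sqrt (kk n))⁻¹) (atTop ⊓ 𝓟 AA) (𝓝 0) :=
    h1.mono_left inf_le_left
  apply squeeze_zero' _ _ h2
  · filter_upwards with n
    unfold FF; positivity
  · have e1 : ∀ᶠ n in (atTop ⊓ 𝓟 AA), 1 ≤ kk n ∧ 1 ≤ n :=
      (((kk_tendsto.eventually_ge_atTop 1).and (eventually_ge_atTop 1))).filter_mono inf_le_left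
    have e2 : ∀ᶠ n in (atTop ⊓ 𝓟 AA), n ∈ AA :=
      (mem_principal_self AA : AA ∈ 𝓟 AA) |> fun h => mem_inf_of_right h
    filter_upwards [e1, e2] with n hn hA
    obtain ⟨hk, hn1⟩ := hn
    have hkR : (0 : ℝ) < kk n := by exact_mod_cast hk
    have hs : 0 < Real.sqrt (kk n) := Real.sqrt_pos.2 hkR
    have hphi : (0 : ℝ) < Nat.totient n := by exact_mod_cast Nat.totient_pos.2 hn1
    unfold FF
    rw [div_div, div_le_iff₀ (by positivity)]
    have hA' : (n : ℝ) ≤ Nat.totient n * Real.sqrt (kk n) := hA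
    have h3 : (Real.sqrt (kk n))⁻¹ * (kk n * Nat.totient n) = Nat.totient n * Real.sqrt (kk n) := by
      have h4 : (kk n : ℝ) = Real.sqrt (kk n) * Real.sqrt (kk n) :=
        (Real.mul_self_sqrt hkR.le).symm
      field_simp
      rw [pow_two]
      linarith
    rw [h3]; exact hA'

lemma AA_density : Tendsto (fun N : ℕ => ((AA ∩ Set.Iio N).ncard : ℝ) / (N : ℝ)) atTop (𝓝 1) := by
  classical
  -- complement count
  have hcomp : ∀ N : ℕ, ((AA ∩ Set.Iio N).ncard : ℝ) =
      N - (((range N).filter (fun n => n ∉ AA)).card : ℝ) := by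
    intro N
    have h1 : (AA ∩ Set.Iio N) = (((range N).filter (fun n => n ∈ AA) : Finset ℕ) : Set ℕ) := by
      ext n; simp [and_comm]
    rw [h1, Set.ncard_coe_finset]
    have h2 := card_filter_add_card_filter_not (s := range N) (fun n => n ∈ AA)
    rw [card_range] at h2
    have h3 : ((((range N).filter (fun n => n ∈ AA)).card : ℕ) : ℝ) +
      (((range N).filter (fun n => n ∉ AA)).card : ℝ) = N := by exact_mod_cast h2
    linarith
  have hlim : Tendsto (fun N : ℕ => (((range N).filter (fun n => n ∉ AA)).card : ℝ) / N)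
      atTop (𝓝 0) := by
    rw [Metric.tendsto_atTop]
    intro ε hε
    -- choose y
    obtain ⟨y, hy⟩ := exists_nat_gt (8 / ε)
    have hyR : (0 : ℝ) < y := lt_trans (by positivity) hy
    set c := ∏ p ∈ (range (y + 1)).filter (fun p => p.Prime), (1 - 1 / (p : ℝ)) with hc
    have hc0 : 0 < c := prod_pos fun p hp => fac_pos (mem_filter.1 hp).2
    have hcv : ∀ n, c ≤ v y n := by
      intro n
      rw [hc]
      unfold v
      have : (range (y + 1)).filter (fun p => p.Prime ∧ p ∣ n) ⊆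
        (range (y + 1)).filter (fun p => p.Prime) := by
        intro p hp
        rw [mem_filter] at hp ⊢
        exact ⟨hp.1, hp.2.1⟩
      rw [← prod_sdiff this]
      apply mul_le_of_le_one_left
      · exact prod_nonneg fun p hp => (fac_pos (mem_filter.1 hp).2.1).le
      · apply prod_le_one
        · intro p hp; exact (fac_pos (mem_filter.1 (mem_sdiff.1 hp).1).2).le
        · intro p hp; exact fac_le (mem_filter.1 (mem_sdiff.1 hp).1).2
    have hev : ∀ᶠ n : ℕ in atTop, 2 / c ≤ Real.sqrt (kk n) :=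
      (Real.tendsto_sqrt_atTop.comp (tendsto_natCast_atTop_atTop.comp
        kk_tendsto)).eventually_ge_atTop _
    obtain ⟨M, hM⟩ := eventually_atTop.1 hev
    have hsub : ∀ N : ℕ, (((range N).filter (fun n => n ∉ AA)).card : ℝ) ≤
        M + N * (4 / y) := by
      intro N
      have h1 : (range N).filter (fun n => n ∉ AA) ⊆
          range M ∪ (range N).filter (fun n => (1 / 2 : ℝ) < tail y n) := by
        intro n hn
        rw [mem_filter] at hn
        rw [mem_union, mem_range, mem_filter]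
        by_contra hcon
        rw [not_or, not_lt, not_and] at hcon
        have h2 := not_lt.1 (hcon.2 hn.1)
        apply hn.2
        have h3 := (phi_bounds y n).1
        have h4 := hM n hcon.1
        have h5 := hcv n
        have h6 : (n : ℝ) * c * (1 / 2) ≤ Nat.totient n := by
          refine le_trans ?_ h3
          apply mul_le_mul _ (by linarith) (by norm_num)
            (by have := v_pos y n; positivity)
          exact mul_le_mul_of_nonneg_left h5 (by positivity)
        have h7 : (n : ℝ) = n * c * (1 / 2) * (2 / c) := by field_simp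
        change (n : ℝ) ≤ Nat.totient n * Real.sqrt (kk n)
        calc (n : ℝ) = n * c * (1 / 2) * (2 / c) := h7
          _ ≤ Nat.totient n * Real.sqrt (kk n) := by
            apply mul_le_mul h6 h4 (by positivity) (by positivity)
      have h2 : ((range N).filter (fun n => n ∉ AA)).card ≤
          M + ((range N).filter (fun n => (1 / 2 : ℝ) < tail y n)).card := by
        refine (card_le_card h1).trans ((card_union_le _ _).trans ?_)
        rw [card_range]
      have h3 := markov y N (1 / 2)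
      have h4 : (((range N).filter (fun n => n ∉ AA)).card : ℝ) ≤
          M + (((range N).filter (fun n => (1 / 2 : ℝ) < tail y n)).card : ℝ) := by
        exact_mod_cast h2
      have h5 : (2 : ℝ) / (y + 1) ≤ 2 / y := by
        apply div_le_div_of_nonneg_left (by norm_num) hyR
        linarith
      have h6 : (N : ℝ) * (2 / (y + 1)) ≤ N * (2 / y) := by gcongr
      have h7 : (N : ℝ) * (4 / y) = 2 * (N * (2 / y)) := by ring
      linarith
    obtain ⟨N0, hN0⟩ := exists_nat_gt (2 * (M : ℝ) / ε)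
    refine ⟨N0 + 1, fun N hN => ?_⟩
    have hNR : (0 : ℝ) < N := by
      have : 0 < N := by omega
      exact_mod_cast this
    rw [Real.dist_eq, sub_zero, abs_of_nonneg (by positivity), div_lt_iff₀ hNR]
    refine (hsub N).trans_lt ?_
    have h1 : 2 * (M : ℝ) / ε < N := by
      have : (N0 : ℝ) ≤ N := by exact_mod_cast (by omega : N0 ≤ N)
      linarith
    rw [div_lt_iff₀ hε] at h1
    have h2 : (4 : ℝ) / y < ε / 2 := by
      rw [div_lt_iff₀ hyR]
      rw [div_lt_iff₀ hε] at hy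
      linarith
    have h3 : (N : ℝ) * (4 / y) < N * (ε / 2) := by
      exact mul_lt_mul_of_pos_left h2 hNR
    linarith
  have h1 : Tendsto (fun N : ℕ => 1 - (((range N).filter (fun n => n ∉ AA)).card : ℝ) / N)
      atTop (𝓝 1) := by
    have := hlim.const_sub 1
    rwa [sub_zero] at this
  apply h1.congr'
  filter_upwards [eventually_ge_atTop 1] with N hN
  have hNR : (N : ℝ) ≠ 0 := by
    have : (0 : ℝ) < N := by exact_mod_cast hN
    exact ne_of_gt this
  rw [hcomp, sub_div, div_self hNR]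

theorem main :
    ∃ F : ℕ → ℝ, Tendsto F atTop atTop ∧
      (∃ A : Set ℕ,
        Tendsto (fun N : ℕ => ((A ∩ Set.Iio N).ncard : ℝ) / (N : ℝ)) atTop (𝓝 1) ∧
        Tendsto (fun n : ℕ => F n / (Nat.totient n : ℝ)) (atTop ⊓ 𝓟 A) (𝓝 0)) ∧
      ¬ (∀ C : ℝ, Set.Infinite {x : ℕ |
          ((Set.ncard {n : ℕ | (x : ℝ) < (n : ℝ) + (Nat.totient n : ℝ) ∧
              (n : ℝ) + (Nat.totient n : ℝ) < (x : ℝ) + F x} : ℕ) : ℝ) > C * F x}) := by
  refine ⟨FF, FF_tendsto, ⟨AA, AA_density, FF_div⟩, ?_⟩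
  intro h
  have h5 := h 5
  apply h5
  obtain ⟨M, hM⟩ := eventually_atTop.1 (kk_tendsto.eventually_ge_atTop 1)
  apply (Set.finite_Iio M).subset
  intro x hx
  by_contra hcon
  rw [Set.mem_Iio, not_lt] at hcon
  have h1 := count_le (hM x hcon) (kk_spec x)
  have h2 : ((Set.ncard {n : ℕ | (x : ℝ) < (n : ℝ) + (Nat.totient n : ℝ) ∧
              (n : ℝ) + (Nat.totient n : ℝ) < (x : ℝ) + FF x} : ℕ) : ℝ) > 5 * FF x := hx
  unfold FF at h2
  linarith

end Pool.Agent.V11294.PT
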